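import Pool.Agent.helper75.LC.Spec
import Pool.Agent.helper81.MX.A24

set_option autoImplicit false

namespace Pool.Agent.LC

open MX MG

open scoped MatrixGroups

theorem NA2_card {G : Type} [Group G] (A B : Subgroup G) :
    Nat.card (A.subgroupOf B) = Nat.card (A ⊓ B : Subgroup G) := by
  rw [← Subgroup.inf_subgroupOf_right A B]
  exact Nat.card_congr (Subgroup.subgroupOfEquivOfLe (inf_le_right : A ⊓ B ≤ B)).toEquiv

theorem NA2_idx {G : Type} [Group G] [Finite G] (N M : Subgroup G) [N.Normal] (h : M ⊔ N = ⊤) :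
    M.index = M.relIndex N := by
  have h1 : N.index = N.relIndex M := by
    rw [← Subgroup.relIndex_sup_right, h, Subgroup.relIndex_top_right]
  have c1 : Nat.card N * N.index = Nat.card G := Subgroup.card_mul_index N
  have c2 : Nat.card M * M.index = Nat.card G := Subgroup.card_mul_index M
  have c3 : Nat.card (N.subgroupOf M) * N.relIndex M = Nat.card M := Subgroup.card_mul_index _
  have c4 : Nat.card (M.subgroupOf N) * M.relIndex N = Nat.card N := Subgroup.card_mul_index _
  have c5 : Nat.card (N.subgroupOf M) = Nat.card (M.subgroupOf N) := by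
    rw [NA2_card, NA2_card, inf_comm]
  have hpos : 0 < Nat.card M := Nat.card_pos
  refine Nat.eq_of_mul_eq_mul_left hpos ?_
  calc Nat.card M * M.index = Nat.card N * N.index := by rw [c1, c2]
    _ = (Nat.card (M.subgroupOf N) * M.relIndex N) * N.relIndex M := by rw [c4, h1]
    _ = (Nat.card (N.subgroupOf M) * N.relIndex M) * M.relIndex N := by rw [c5]; ring
    _ = _ := by rw [c3]

theorem NA2 : NA2_stmt := by
  intro G _ _ N hN hc p r _ _ hrp hexp M hM hPA
  by_contra hNM
  obtain ⟨htop, hbot, _⟩ := A24_basic N hN hc M hM hNM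
  obtain ⟨N', hN'n, hN'M, hcomm, hpow⟩ := hPA
  haveI := hN.1
  haveI := hN'n
  -- the index of `M` is the order of `N`
  have hcompl : Subgroup.IsComplement' N M := by
    refine Subgroup.isComplement'_of_disjoint_and_mul_eq_univ (disjoint_iff.mpr hbot) ?_
    rw [← Subgroup.normal_mul, htop]
    rfl
  have hidx : M.index = Nat.card N := hcompl.index_eq_card
  have hpN : IsPGroup r N := by
    intro a
    refine ⟨1, ?_⟩
    apply Subtype.ext
    show (a : G) ^ r ^ 1 = 1
    rw [pow_one]
    exact hexp a a.2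
  obtain ⟨j, hj⟩ := (IsPGroup.iff_card).mp hpN
  -- the index is a power of `p`
  have htop' : M ⊔ N' = ⊤ := by
    refine hM.2 _ (lt_of_le_of_ne le_sup_left ?_)
    intro h
    apply hN'M
    rw [h]
    exact le_sup_right
  have hidx' := NA2_idx N' M htop'
  haveI hnorm : (M.subgroupOf N').Normal := by
    refine ⟨?_⟩
    intro m hm n
    rw [Subgroup.mem_subgroupOf] at hm ⊢
    have h1 : ((n * m * n⁻¹ : N') : G) = ((n : G) * (m : G) * (n : G)⁻¹ * (m : G)⁻¹) * (m : G) := by
      push_cast
      group
    rw [h1]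
    exact M.mul_mem (hcomm n n.2 m m.2) hm
  have hpQ : IsPGroup p (N' ⧸ (M.subgroupOf N')) := by
    intro q
    induction q using QuotientGroup.induction_on with
    | H a =>
      obtain ⟨k, hk⟩ := hpow a a.2
      refine ⟨k, ?_⟩
      rw [← QuotientGroup.mk_pow, QuotientGroup.eq_one_iff, Subgroup.mem_subgroupOf]
      push_cast
      exact hk
  obtain ⟨i, hi⟩ := (IsPGroup.iff_card).mp hpQ
  have hi' : M.relIndex N' = p ^ i := hi
  have heq : r ^ j = p ^ i := by rw [← hj, ← hidx, hidx', hi']
  have hj0 : j = 0 := by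
    by_contra hj0
    have h1 : r ∣ p ^ i := by
      rw [← heq]
      exact dvd_pow_self r hj0
    have h2 : r ∣ p := (Fact.out : r.Prime).dvd_of_dvd_pow h1
    exact hrp ((Nat.prime_dvd_prime_iff_eq (Fact.out : r.Prime) (Fact.out : p.Prime)).mp h2)
  rw [hj0, pow_zero] at hj
  exact hN.2.1 ((Subgroup.card_eq_one).mp hj)

end Pool.Agent.LC
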